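import Pool.Agent.Helper7.SR.Goals

/-!
# Packet SR-ALT: minimal closed alternating sequences with positive gain
-/

namespace Pool.Agent.Helper8.SR

open Finset Pool.Agent.Helper7.SR

universe u v

section

variable {X : Type u} {Y : Type v} {A : X → Y → Prop} {B : Y → X → Prop}
  {x : ℕ → X} {y : ℕ → Y} {m : ℕ} (a : X → ℝ) (b : Y → ℝ)

/-- Partial sums. -/
def cs (x : ℕ → X) (y : ℕ → Y) (p : ℕ) : ℝ := ∑ j ∈ range p, (a (x (j + 1)) - b (y j))

theorem gain_eq (h : Closed A B m x y) : gain a b m x y = cs a b x y m := by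
  have h0 : x m = x 0 := by
    have := h.1 0
    rwa [zero_add] at this
  have h1 : ∑ p ∈ range m, a (x p) = ∑ p ∈ range m, a (x (p + 1)) := by
    have e1 := sum_range_succ (fun p => a (x p)) m
    have e2 := sum_range_succ' (fun p => a (x p)) m
    simp only [h0] at e1
    linarith
  unfold gain cs
  rw [sum_sub_distrib, sum_sub_distrib, h1]

theorem cs_add (h : Closed A B m x y) (p : ℕ) : cs a b x y (p + m) = cs a b x y p + cs a b x y m := by
  induction p with
  | zero => simp [cs]
  | succ p ih =>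
    have e1 : cs a b x y (p + 1 + m) = cs a b x y (p + m) + (a (x (p + m + 1)) - b (y (p + m))) := by
      have : p + 1 + m = p + m + 1 := by ring
      rw [this]
      unfold cs
      rw [sum_range_succ]
    have e2 : cs a b x y (p + 1) = cs a b x y p + (a (x (p + 1)) - b (y p)) := by
      unfold cs
      rw [sum_range_succ]
    have e3 : x (p + m + 1) = x (p + 1) := by
      have := h.1 (p + 1)
      rw [← this]
      congr 1
      ring
    rw [e1, e2, e3, h.2.1 p, ih]
    ring

theorem e_succ (n i : ℕ) : (if (i + 1) % (n + 1) = 0 then n + 1 else (i + 1) % (n + 1)) =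
    i % (n + 1) + 1 := by
  have h1 : i % (n + 1) < n + 1 := Nat.mod_lt _ (Nat.succ_pos n)
  have h2 : (i + 1) % (n + 1) = (i % (n + 1) + 1) % (n + 1) := by
    rw [Nat.add_mod i 1, Nat.add_mod (i % (n + 1)) 1, Nat.mod_mod]
  rw [h2]
  rcases Nat.lt_or_ge (i % (n + 1) + 1) (n + 1) with h3 | h3
  · rw [Nat.mod_eq_of_lt h3, if_neg (by omega)]
  · have h4 : i % (n + 1) + 1 = n + 1 := by omega
    rw [h4, Nat.mod_self, if_pos rfl]

/-- Cutting a closed sequence. -/
theorem cut (h : Closed A B m x y) {p r : ℕ} (h1 : p < r) (hA : A (x r) (y p)) :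
    ∃ (x' : ℕ → X) (y' : ℕ → Y), Closed A B (r - p) x' y' ∧
      gain a b (r - p) x' y' = cs a b x y r - cs a b x y p := by
  obtain ⟨n, rfl⟩ := Nat.exists_eq_add_of_lt h1
  have e0 : p + n + 1 - p = n + 1 := by omega
  rw [e0]
  refine ⟨fun i => x (p + (if i % (n + 1) = 0 then n + 1 else i % (n + 1))),
    fun i => y (p + i % (n + 1)), ⟨?_, ?_, ?_, ?_⟩, ?_⟩
  · intro i
    simp only [Nat.add_mod_right]
  · intro i
    simp only [Nat.add_mod_right]
  · intro i
    by_cases h2 : i % (n + 1) = 0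
    · simp only [h2, if_true]
      exact hA
    · simp only [h2, if_false]
      exact h.2.2.1 _
  · intro i
    simp only [e_succ]
    exact h.2.2.2 _
  · unfold gain
    rw [sum_sub_distrib]
    have e1 : ∑ i ∈ range (n + 1), a (x (p + (if i % (n + 1) = 0 then n + 1 else i % (n + 1)))) =
        ∑ i ∈ range (n + 1), a (x (p + i + 1)) := by
      rw [sum_range_succ', sum_range_succ]
      simp only [e_succ]
      have e2 : ∀ i ∈ range n, a (x (p + (i % (n + 1) + 1))) = a (x (p + i + 1)) := by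
        intro i hi
        rw [Nat.mod_eq_of_lt (by have := mem_range.1 hi; omega), add_assoc]
      rw [sum_congr rfl e2]
      simp [add_assoc]
    have e3 : ∑ i ∈ range (n + 1), b (y (p + i % (n + 1))) = ∑ i ∈ range (n + 1), b (y (p + i)) := by
      refine sum_congr rfl fun i hi => ?_
      rw [Nat.mod_eq_of_lt (mem_range.1 hi)]
    have e4 : cs a b x y (p + n + 1) = cs a b x y p +
        ∑ i ∈ range (n + 1), (a (x (p + i + 1)) - b (y (p + i))) := by
      unfold cs
      rw [add_assoc p n 1, sum_range_add]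
    rw [e1, e3, e4, sum_sub_distrib]
    ring

variable (hC : Closed A B m x y) (hG : 0 < gain a b m x y)
  (hmin : ∀ s, 1 ≤ s → s < m → ∀ (x' : ℕ → X) (y' : ℕ → Y), Closed A B s x' y' →
    gain a b s x' y' ≤ 0)

include hC hmin in
theorem cut_le {p r : ℕ} (h1 : p < r) (h2 : r < p + m) (hA : A (x r) (y p)) :
    cs a b x y r ≤ cs a b x y p := by
  obtain ⟨x', y', h3, h4⟩ := cut a b hC h1 hA
  have := hmin (r - p) (by omega) (by omega) x' y' h3
  rw [h4] at this
  linarith

include hC hG hmin in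
theorem two_cut {i j : ℕ} (h1 : i < j) (h2 : j < m) (hA : A (x j) (y i)) (hA' : A (x i) (y j)) :
    False := by
  have e1 := cut_le a b hC hmin h1 (by omega) hA
  have h3 : A (x (i + m)) (y j) := by
    rw [hC.1 i]
    exact hA'
  have e2 := cut_le a b hC hmin (p := j) (r := i + m) (by omega) (by omega) h3
  rw [cs_add a b hC i] at e2
  rw [gain_eq a b hC] at hG
  linarith

include hC hG hmin in
theorem simple_x {i j : ℕ} (hi : i < m) (hj : j < m) (h : x i = x j) : i = j := by
  rcases Nat.lt_trichotomy i j with h1 | h1 | h1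
  · exact (two_cut a b hC hG hmin h1 hj (h ▸ hC.2.2.1 i) (h ▸ hC.2.2.1 j)).elim
  · exact h1
  · exact (two_cut a b hC hG hmin h1 hi (h ▸ hC.2.2.1 j) (h ▸ hC.2.2.1 i)).elim

include hC hG hmin in
theorem simple_y {i j : ℕ} (hi : i < m) (hj : j < m) (h : y i = y j) : i = j := by
  rcases Nat.lt_trichotomy i j with h1 | h1 | h1
  · exact (two_cut a b hC hG hmin h1 hj (h ▸ hC.2.2.1 j) (h ▸ hC.2.2.1 i)).elim
  · exact h1
  · exact (two_cut a b hC hG hmin h1 hi (h ▸ hC.2.2.1 i) (h ▸ hC.2.2.1 j)).elim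

include hC hG hmin in
theorem unique_A (τ : Equiv.Perm (Fin m)) (hτ : ∀ i : Fin m, A (x i) (y (τ i))) : τ = 1 := by
  have hG' : 0 < cs a b x y m := by rwa [gain_eq a b hC] at hG
  have hle : ∀ i : Fin m, τ i ≤ i := by
    by_contra hcon
    push Not at hcon
    obtain ⟨i₀, hi₀⟩ := hcon
    have hsum : ∑ i : Fin m, (cs a b x y i - cs a b x y (τ i)) = 0 := by
      rw [sum_sub_distrib, sub_eq_zero]
      exact (Equiv.sum_comp τ fun i : Fin m => cs a b x y i).symm
    have hbig : ∀ i : Fin m, i < τ i → cs a b x y i - cs a b x y (τ i) < 0 := by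
      intro i hi
      have h3 : A (x (i + m)) (y (τ i)) := by
        rw [hC.1 i]
        exact hτ i
      have h4 : (i : ℕ) < (τ i : ℕ) := hi
      have e2 := cut_le a b hC hmin (p := τ i) (r := i + m)
        (by have := (τ i).2; omega) (by omega) h3
      rw [cs_add a b hC i] at e2
      linarith
    have hlt : ∑ i : Fin m, (cs a b x y i - cs a b x y (τ i)) < ∑ i : Fin m, (0 : ℝ) := by
      refine sum_lt_sum (fun i _ => ?_) ⟨i₀, mem_univ _, hbig i₀ hi₀⟩
      rcases lt_trichotomy i (τ i) with h1 | h1 | h1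
      · exact (hbig i h1).le
      · rw [← h1, sub_self]
      · have h4 : (τ i : ℕ) < (i : ℕ) := h1
        have := cut_le a b hC hmin (p := τ i) (r := i) h4
          (by have := i.2; omega) (hτ i)
        linarith
    rw [hsum] at hlt
    simp at hlt
  have hfix : ∀ n : ℕ, ∀ i : Fin m, (i : ℕ) = n → τ i = i := by
    intro n
    induction n using Nat.strong_induction_on with
    | _ n ih =>
      intro i hi
      rcases lt_or_eq_of_le (hle i) with h1 | h1
      · have h2 : ((τ i : Fin m) : ℕ) < n := by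
          rw [← hi]
          exact h1
        have h3 := ih _ h2 (τ i) rfl
        exact τ.injective h3
      · exact h1
  ext i
  rw [hfix i i rfl]
  rfl

end

/-- The reversed sequence is closed. -/
theorem closed_rev {X : Type u} {Y : Type v} {A : X → Y → Prop} {B : Y → X → Prop} {m : ℕ}
    {x : ℕ → X} {y : ℕ → Y} (h : Closed A B m x y) : Closed B A m y fun p => x (p + 1) := by
  refine ⟨h.2.1, fun p => ?_, h.2.2.2, fun p => h.2.2.1 (p + 1)⟩
  have h1 := h.1 (p + 1)
  show x (p + m + 1) = x (p + 1)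
  have e : p + m + 1 = p + 1 + m := by ring
  rw [e]
  exact h1

theorem gain_rev {X : Type u} {Y : Type v} {A : X → Y → Prop} {B : Y → X → Prop} {m : ℕ}
    (a : X → ℝ) (b : Y → ℝ) {x : ℕ → X} {y : ℕ → Y} (h : Closed A B m x y) :
    gain (fun z => -b z) (fun z => -a z) m y (fun p => x (p + 1)) = gain a b m x y := by
  rw [gain_eq a b h]
  unfold gain cs
  exact sum_congr rfl fun p _ => by ring

theorem s_alt : S_ALT.{u, v} := by
  classical
  intro X Y A B a b L hex
  have hex' : ∃ m, 1 ≤ m ∧ ∃ (x : ℕ → X) (y : ℕ → Y), Closed A B m x y ∧ 0 < gain a b m x y := by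
    obtain ⟨m, h1, _, h2⟩ := hex
    exact ⟨m, h1, h2⟩
  obtain ⟨h1, x, y, hC, hG⟩ := Nat.find_spec hex'
  have hmin : ∀ s, 1 ≤ s → s < Nat.find hex' → ∀ (x' : ℕ → X) (y' : ℕ → Y), Closed A B s x' y' →
      gain a b s x' y' ≤ 0 := by
    intro s hs1 hs2 x' y' hC'
    by_contra hcon
    exact Nat.find_min hex' hs2 ⟨hs1, x', y', hC', not_le.1 hcon⟩
  have hL : Nat.find hex' ≤ L := by
    obtain ⟨m, h2, h3, h4⟩ := hex
    exact (Nat.find_min' hex' ⟨h2, h4⟩).trans h3
  refine ⟨Nat.find hex', h1, hL, x, y, hC, hG,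
    fun i j hi hj h => simple_x a b hC hG hmin hi hj h,
    fun i j hi hj h => simple_y a b hC hG hmin hi hj h,
    fun τ hτ => unique_A a b hC hG hmin τ hτ, ?_⟩
  intro τ hτ
  have hmin' : ∀ s, 1 ≤ s → s < Nat.find hex' → ∀ (x' : ℕ → Y) (y' : ℕ → X),
      Closed B A s x' y' → gain (fun z => -b z) (fun z => -a z) s x' y' ≤ 0 := by
    intro s hs1 hs2 x' y' hC'
    have h3 := hmin s hs1 hs2 y' (fun p => x' (p + 1)) (closed_rev hC')
    have h4 := gain_rev (fun z => -b z) (fun z => -a z) hC'
    simp only [neg_neg] at h4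
    rw [← h4]
    exact h3
  refine unique_A (fun z => -b z) (fun z => -a z) (closed_rev hC) ?_ hmin' τ hτ
  rw [gain_rev a b hC]
  exact hG

end Pool.Agent.Helper8.SR
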