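import Pool.Agent.Helper29.SR.Props
import Pool.Agent.Helper10.RC.Homs

/-!
# MP_b55b7c_an, packet SR-TDivPull: tracial divisibility passes to larger algebras
-/

open scoped ENNReal NNReal InnerProductSpace ComplexOrder
open Filter Topology

attribute [-instance] CStarMatrix.instAlgebra CStarMatrix.instModule CStarMatrix.instSMul
  CStarMatrix.instMulAction CStarMatrix.instDistribMulAction

noncomputable section
namespace RC
universe u

/-- Tracial divisibility of the unit passes to larger algebras. -/
theorem tDivPullP (hQ : QPullP.{u}) : TDivPullP.{u} := by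
  intro A _ _ _ R _ _ _ k hk hA N δ hδ
  obtain ⟨L, hNL, hL, f, hf, ⟨s, c, hc, h1, h2⟩, h3⟩ := hA N δ hδ
  have hmono : ∀ x y : A, x ≤ y → k x ≤ k y := by
    intro x y hxy
    have : 0 ≤ k (y - x) := map_nonneg k (sub_nonneg.2 hxy)
    rw [map_sub] at this
    exact sub_nonneg.1 this
  refine ⟨L, hNL, hL, k f, map_nonneg k hf, ⟨fun i => k (s i), k c, map_nonneg k hc, ?_, ?_⟩, ?_⟩
  · have h := hmono _ _ h1
    have hsm : k (δ • (1 : A)) = δ • (1 : R) := by
      have e1 : (δ • (1 : A)) = ((δ : ℂ) • (1 : A)) := by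
        exact (Complex.coe_smul δ (1 : A)).symm
      have e2 : (δ • (1 : R)) = ((δ : ℂ) • (1 : R)) := by
        exact (Complex.coe_smul δ (1 : R)).symm
      rw [e1, e2, map_smul, map_one]
    rw [map_one, map_add, map_add, map_sum, hsm] at h
    simpa only [map_mul, map_star] using h
  · intro ω
    obtain ⟨ω', hω'⟩ := hQ R A k hk ω
    have h := h2 ω'
    rw [hω' Unit (one1 c) (one1_nonneg hc)] at h
    exact h
  · intro ω
    obtain ⟨ω', hω'⟩ := hQ R A k hk ω
    have h := h3 ω'
    rw [hω' Unit (one1 f) (one1_nonneg hf)] at h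
    exact h

end RC
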